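import Pool.Agent.R115.UB.Main
import Pool.Agent.R115.UB.Ekr

/-!
Nonnegative `k`-sums: for `n ≥ f(k) + k` the extremal configuration is unique.
-/

set_option autoImplicit false

namespace Pool.Agent.Results.MP_b5758b_co.UniquenessBeyond

open Finset Pool.Agent.R115.UB

/-- Uniqueness at `(k, n)`: if `x₁ ≥ ⋯ ≥ x_n` has nonnegative sum and exactly
`(n-1).choose (k-1)` nonnegative `k`-sums then the `k`-sets with nonnegative sum are exactly the
`k`-sets containing the first index, and `x₁ + x_{n-k+2} + ⋯ + x_n ≥ 0`. -/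
def Unique (k n : ℕ) : Prop :=
  ∀ (hn : 0 < n) (x : Fin n → ℝ), Antitone x → 0 ≤ ∑ i, x i → s k x = (n - 1).choose (k - 1) →
    (∀ S : Finset (Fin n), S.card = k → (0 ≤ ∑ i ∈ S, x i ↔ (⟨0, hn⟩ : Fin n) ∈ S)) ∧
    0 ≤ x ⟨0, hn⟩ + ∑ i ∈ univ.filter (fun i : Fin n => n - k + 1 ≤ (i : ℕ)), x i

theorem last_card (n k : ℕ) (hk : 1 ≤ k) (hkn : k ≤ n) :
    (univ.filter (fun i : Fin n => n - k + 1 ≤ (i : ℕ))).card = k - 1 := by
  rw [← Finset.card_map Fin.valEmbedding]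
  have h : (univ.filter (fun i : Fin n => n - k + 1 ≤ (i : ℕ))).map Fin.valEmbedding
      = Finset.Ico (n - k + 1) n := by
    ext a
    simp only [Finset.mem_map, Finset.mem_filter, Finset.mem_univ, true_and, Finset.mem_Ico]
    constructor
    · rintro ⟨i, hi, rfl⟩
      exact ⟨hi, i.2⟩
    · rintro ⟨h1, h2⟩
      exact ⟨⟨a, h2⟩, h1, rfl⟩
  rw [h, Nat.card_Ico]
  omega

theorem unique_of {k n : ℕ} (hk : 1 ≤ k) (hkn : k ≤ n)
    (h : ∀ (hn : 0 < n) (x : Fin n → ℝ), Antitone x → 0 ≤ ∑ i, x i →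
      s k x = (n - 1).choose (k - 1) →
      ∀ S : Finset (Fin n), S.card = k → (0 ≤ ∑ i ∈ S, x i ↔ (⟨0, hn⟩ : Fin n) ∈ S)) :
    Unique k n := by
  intro hn x hx h0 hs
  have h1 := h hn x hx h0 hs
  refine ⟨h1, ?_⟩
  have h2 : (⟨0, hn⟩ : Fin n) ∉ univ.filter (fun i : Fin n => n - k + 1 ≤ (i : ℕ)) := by
    rw [Finset.mem_filter]
    rintro ⟨_, h3⟩
    simp at h3
  have h3 := (h1 (insert ⟨0, hn⟩ (univ.filter (fun i : Fin n => n - k + 1 ≤ (i : ℕ)))) (by
    rw [Finset.card_insert_of_notMem h2, last_card n k hk hkn]; omega)).2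
      (Finset.mem_insert_self _ _)
  rwa [Finset.sum_insert h2] at h3

/-- If the bound `s_k ≥ (m-1).choose (k-1)` holds at one `m > k`, then uniqueness holds at
`m + k`; if it holds at all lengths `≥ m`, then uniqueness holds at all `n ≥ m + k`. -/
theorem result :
    (∀ k m : ℕ, 1 ≤ k → k < m →
      (∀ x : Fin m → ℝ, 0 ≤ ∑ i, x i → (m - 1).choose (k - 1) ≤ s k x) → Unique k (m + k)) ∧
    (∀ k m : ℕ, 2 ≤ k →
      (∀ l : ℕ, m ≤ l → ∀ x : Fin l → ℝ, 0 ≤ ∑ i, x i → (l - 1).choose (k - 1) ≤ s k x) →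
      ∀ n : ℕ, m + k ≤ n → Unique k n) := by
  constructor
  · intro k m hk hkm hM
    exact unique_of hk (by omega) fun hn x hx h0 hs S hS =>
      unique_of_mms ekr k m (m + k) hk hkm rfl hM x hx h0 hs hn S hS
  · intro k m hk hW n hn'
    exact unique_of (by omega) (by omega) fun hn x hx h0 hs S hS =>
      unique_of_works ekr k m n hk hW hn' x hx h0 hs hn S hS

end Pool.Agent.Results.MP_b5758b_co.UniquenessBeyond
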